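import Pool.Agent.Helper31.LQ.Goals
import Mathlib

/-!
# Project LQ (MP_6fb600_gt), packet DECC: the number of the facet permutations at a point
-/

set_option autoImplicit false

open MeasureTheory Set
open scoped ENNReal Matrix
open Pool.Agent.Helper31.LQ

namespace Pool.Agent.Helper39.LQ

variable {n d : ℕ}

theorem lin_pr (Y : Fin n → Fin d → ℝ) (x : Fin (n + 1) → ℝ) (c : Fin d) :
    lin Y (pr x) c = ∑ o, x o * yv Y o c := by
  have h : ∀ l, pr x l = ∑ o, x o * pr (Pi.single o (1 : ℝ)) l := by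
    intro l
    unfold pr
    simp [mul_sub, Finset.sum_sub_distrib, Pi.single_apply]
  unfold yv lin ver
  rw [Finset.sum_congr rfl fun l _ => by rw [h l, Finset.sum_mul]]
  rw [Finset.sum_comm]
  refine Finset.sum_congr rfl fun o _ => ?_
  rw [Finset.mul_sum]
  exact Finset.sum_congr rfl fun l _ => by ring

theorem dot (Y : Fin n → Fin d → ℝ) (ν : Fin d → ℝ) (x : Fin (n + 1) → ℝ) :
    ∑ c, ν c * lin Y (pr x) c = ∑ o, x o * ∑ c, ν c * yv Y o c := by
  rw [Finset.sum_congr rfl fun c _ => by rw [lin_pr, Finset.mul_sum]]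
  rw [Finset.sum_comm]
  refine Finset.sum_congr rfl fun o _ => ?_
  rw [Finset.mul_sum]
  exact Finset.sum_congr rfl fun c _ => by ring

theorem kp_eq (Y : Fin n → Fin d → ℝ) (π : Equiv.Perm (Fin (n + 1))) (o : Fin (n + 1)) :
    ∑ c, nu Y π c * yv Y o c = 1 - (n + 1) * kp Y π o := by
  unfold kp
  have : (n : ℝ) + 1 ≠ 0 := by positivity
  field_simp
  ring

theorem emb_pos (π : Equiv.Perm (Fin (n + 1))) (t : Fin d → ℝ) (ht : ∀ a, 0 < t a)
    (o : Fin (n + 1)) (h : (π.symm o).val < d) : 0 < emb d π t o := by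
  unfold emb
  rw [dif_pos h]
  exact ht _

theorem emb_zero (π : Equiv.Perm (Fin (n + 1))) (t : Fin d → ℝ) (o : Fin (n + 1))
    (h : ¬ (π.symm o).val < d) : emb d π t o = 0 := by
  unfold emb
  rw [dif_neg h]

theorem emb_of (hd : d ≤ n + 1) (π : Equiv.Perm (Fin (n + 1))) (x : Fin (n + 1) → ℝ)
    (hx : ∀ o, ¬ (π.symm o).val < d → x o = 0) :
    emb d π (fun a => x (π (Fin.castLE hd a))) = x := by
  funext o
  by_cases h : (π.symm o).val < d
  · unfold emb
    rw [dif_pos h]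
    show x (π (Fin.castLE hd ⟨(π.symm o).val, h⟩)) = x o
    have h1 : Fin.castLE hd ⟨(π.symm o).val, h⟩ = π.symm o := Fin.ext rfl
    rw [h1, Equiv.apply_symm_apply]
  · rw [emb_zero _ _ _ h, hx o h]

theorem emb_single (hd : d ≤ n + 1) (π : Equiv.Perm (Fin (n + 1))) (a : Fin d) :
    emb d π (Pi.single a 1) = Pi.single (π (Fin.castLE hd a)) (1 : ℝ) := by
  have h := emb_of hd π (Pi.single (π (Fin.castLE hd a)) (1 : ℝ)) (fun o ho => by
    refine Pi.single_eq_of_ne (fun h => ho ?_) _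
    rw [h, Equiv.symm_apply_apply]
    exact a.2)
  rw [← h]
  congr 1
  funext b
  by_cases hb : b = a
  · subst hb
    rw [Pi.single_eq_same, Pi.single_eq_same]
  · rw [Pi.single_eq_of_ne hb, Pi.single_eq_of_ne]
    intro h'
    exact hb (Fin.castLE_injective hd (π.injective h'))

theorem mat_row (hd : d ≤ n + 1) (Y : Fin n → Fin d → ℝ) (π : Equiv.Perm (Fin (n + 1)))
    (a c : Fin d) : mat Y π a c = yv Y (π (Fin.castLE hd a)) c := by
  show lin Y (pr (emb d π (Pi.single a 1))) c = _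
  rw [emb_single hd]
  rfl

theorem mat_nu (Y : Fin n → Fin d → ℝ) (π : Equiv.Perm (Fin (n + 1))) (h : (mat Y π).det ≠ 0) :
    mat Y π *ᵥ nu Y π = fun _ => 1 := by
  unfold nu
  rw [Matrix.mulVec_mulVec, Matrix.mul_nonsing_inv _ (isUnit_iff_ne_zero.2 h), Matrix.one_mulVec]

theorem kp_zero (hd : d ≤ n + 1) (Y : Fin n → Fin d → ℝ) (π : Equiv.Perm (Fin (n + 1)))
    (h : (mat Y π).det ≠ 0) (o : Fin (n + 1)) (ho : (π.symm o).val < d) : kp Y π o = 0 := by
  have h1 := congrFun (mat_nu Y π h) ⟨(π.symm o).val, ho⟩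
  have h2 : ∑ c, nu Y π c * yv Y o c = 1 := by
    rw [← h1]
    unfold Matrix.mulVec dotProduct
    refine Finset.sum_congr rfl fun c _ => ?_
    show nu Y π c * yv Y o c = mat Y π ⟨(π.symm o).val, ho⟩ c * nu Y π c
    rw [mat_row hd]
    have h3 : Fin.castLE hd ⟨(π.symm o).val, ho⟩ = π.symm o := Fin.ext rfl
    rw [h3, Equiv.apply_symm_apply, mul_comm]
  unfold kp
  rw [h2, sub_self, zero_div]

/-- the restriction of `σ` to `{0, …, d - 1}` -/
theorem restr (hd : d ≤ n + 1) (σ : Equiv.Perm (Fin (n + 1)))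
    (hσ : ∀ o, (σ o).val < d ↔ o.val < d) :
    ∃ τ : Equiv.Perm (Fin d), ∀ a, Fin.castLE hd (τ a) = σ (Fin.castLE hd a) := by
  have hf : ∀ a : Fin d, (σ (Fin.castLE hd a)).val < d := fun a => (hσ _).2 a.2
  have hinj : Function.Injective fun a : Fin d =>
      (⟨(σ (Fin.castLE hd a)).val, hf a⟩ : Fin d) := by
    intro a b h
    have h1 : (σ (Fin.castLE hd a)).val = (σ (Fin.castLE hd b)).val :=
      congrArg (fun x : Fin d => x.val) h
    exact Fin.castLE_injective hd (σ.injective (Fin.ext h1))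
  exact ⟨Equiv.ofBijective _ (Finite.injective_iff_bijective.1 hinj), fun a => Fin.ext rfl⟩

theorem mat_mul (hd : d ≤ n + 1) (Y : Fin n → Fin d → ℝ) (π σ : Equiv.Perm (Fin (n + 1)))
    (τ : Equiv.Perm (Fin d)) (hτ : ∀ a, Fin.castLE hd (τ a) = σ (Fin.castLE hd a)) :
    mat Y (π * σ) = (mat Y π).submatrix τ id := by
  ext a c
  rw [Matrix.submatrix_apply, mat_row hd, mat_row hd, hτ]
  rfl

theorem same (hd : d ≤ n + 1) (Y : Fin n → Fin d → ℝ) (π σ : Equiv.Perm (Fin (n + 1)))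
    (hσ : ∀ o, (σ o).val < d ↔ o.val < d) (h : (mat Y π).det ≠ 0) :
    (mat Y (π * σ)).det ≠ 0 ∧ nu Y (π * σ) = nu Y π := by
  obtain ⟨τ, hτ⟩ := restr hd σ hσ
  have hm := mat_mul hd Y π σ τ hτ
  have hdet : (mat Y (π * σ)).det ≠ 0 := by
    rw [hm, Matrix.det_permute]
    refine mul_ne_zero ?_ h
    rcases Int.units_eq_one_or (Equiv.Perm.sign τ) with h1 | h1 <;> rw [h1] <;> norm_num
  refine ⟨hdet, ?_⟩
  have h1 : mat Y (π * σ) *ᵥ nu Y π = fun _ => 1 := by
    funext a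
    have h2 := congrFun (mat_nu Y π h) (τ a)
    rw [← h2, hm]
    rfl
  show (mat Y (π * σ))⁻¹ *ᵥ (fun _ => 1) = _
  rw [← h1, Matrix.mulVec_mulVec, Matrix.nonsing_inv_mul _ (isUnit_iff_ne_zero.2 hdet),
    Matrix.one_mulVec]

theorem symm_mul_val (π σ : Equiv.Perm (Fin (n + 1))) (hσ : ∀ o, (σ o).val < d ↔ o.val < d)
    (o : Fin (n + 1)) : ((π * σ).symm o).val < d ↔ (π.symm o).val < d := by
  have h := hσ ((π * σ).symm o)
  have h1 : σ ((π * σ).symm o) = π.symm o := by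
    rw [Equiv.eq_symm_apply]
    exact (π * σ).apply_symm_apply o
  rw [h1] at h
  exact h.symm

theorem one_side (hd : d ≤ n + 1) (Y : Fin n → Fin d → ℝ) (π π' : Equiv.Perm (Fin (n + 1)))
    (h : IsFac Y π) (t t' : Fin d → ℝ)
    (hz : lin Y (pr (emb d π t)) = lin Y (pr (emb d π' t'))) :
    ∑ o, emb d π t o = ∑ o, emb d π' t' o - (n + 1) * ∑ o, emb d π' t' o * kp Y π o := by
  have h1 := dot Y (nu Y π) (emb d π t)
  rw [hz, dot] at h1
  have h2 : ∑ o, emb d π t o * ∑ c, nu Y π c * yv Y o c = ∑ o, emb d π t o := by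
    refine Finset.sum_congr rfl fun o _ => ?_
    by_cases ho : (π.symm o).val < d
    · rw [kp_eq, kp_zero hd Y π h.1 o ho, mul_zero, sub_zero, mul_one]
    · rw [emb_zero _ _ _ ho, zero_mul]
  rw [← h2, ← h1, Finset.mul_sum, ← Finset.sum_sub_distrib]
  refine Finset.sum_congr rfl fun o _ => ?_
  rw [kp_eq]
  ring

theorem kp_nonneg (hd : d ≤ n + 1) (Y : Fin n → Fin d → ℝ) (π : Equiv.Perm (Fin (n + 1)))
    (h : IsFac Y π) (o : Fin (n + 1)) : 0 ≤ kp Y π o := by
  by_cases ho : (π.symm o).val < d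
  · rw [kp_zero hd Y π h.1 o ho]
  · exact (h.2 o (not_lt.1 ho)).le

theorem emb_nonneg (π : Equiv.Perm (Fin (n + 1))) (t : Fin d → ℝ) (ht : ∀ a, 0 < t a)
    (o : Fin (n + 1)) : 0 ≤ emb d π t o := by
  by_cases ho : (π.symm o).val < d
  · exact (emb_pos π t ht o ho).le
  · rw [emb_zero _ _ _ ho]

theorem sub (hd : d ≤ n + 1) (Y : Fin n → Fin d → ℝ) (π π' : Equiv.Perm (Fin (n + 1)))
    (h : IsFac Y π) (t t' : Fin d → ℝ) (ht' : ∀ a, 0 < t' a)
    (hz : lin Y (pr (emb d π t)) = lin Y (pr (emb d π' t')))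
    (hle : ∑ o, emb d π' t' o ≤ ∑ o, emb d π t o) (o : Fin (n + 1))
    (ho : (π'.symm o).val < d) : (π.symm o).val < d := by
  have h1 := one_side hd Y π π' h t t' hz
  have h2 : ∀ o, 0 ≤ emb d π' t' o * kp Y π o := fun o =>
    mul_nonneg (emb_nonneg π' t' ht' o) (kp_nonneg hd Y π h o)
  have h3 : ∑ o, emb d π' t' o * kp Y π o ≤ 0 := by
    have h4 : ((n : ℝ) + 1) * ∑ o, emb d π' t' o * kp Y π o ≤ 0 := by linarith
    by_contra hc
    have h5 : 0 < ((n : ℝ) + 1) * ∑ o, emb d π' t' o * kp Y π o :=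
      mul_pos (by positivity) (not_le.1 hc)
    linarith
  have h4 : emb d π' t' o * kp Y π o ≤ 0 :=
    (Finset.single_le_sum (f := fun o => emb d π' t' o * kp Y π o) (fun o _ => h2 o)
      (Finset.mem_univ o)).trans h3
  by_contra hc
  have h5 := mul_pos (emb_pos π' t' ht' o ho) (h.2 o (not_lt.1 hc))
  linarith

theorem le_sums (hd : d ≤ n + 1) (Y : Fin n → Fin d → ℝ) (π π' : Equiv.Perm (Fin (n + 1)))
    (h : IsFac Y π) (t t' : Fin d → ℝ) (ht' : ∀ a, 0 < t' a)
    (hz : lin Y (pr (emb d π t)) = lin Y (pr (emb d π' t'))) :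
    ∑ o, emb d π t o ≤ ∑ o, emb d π' t' o := by
  rw [one_side hd Y π π' h t t' hz]
  have h2 : 0 ≤ ((n : ℝ) + 1) * ∑ o, emb d π' t' o * kp Y π o :=
    mul_nonneg (by positivity) (Finset.sum_nonneg fun o _ =>
      mul_nonneg (emb_nonneg π' t' ht' o) (kp_nonneg hd Y π h o))
  linarith

theorem gDECC : DECC := by
  classical
  intro n d _ hdn Y z π hfac hz
  have hd : d ≤ n + 1 := by omega
  unfold Nst
  refine (Fintype.card_congr (Equiv.subtypeEquiv (Equiv.mulLeft π) fun σ => ?_)).symm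
  rw [Equiv.coe_mulLeft]
  obtain ⟨t, ht, rfl⟩ := hz
  have ht0 : ∀ a, 0 < t a := ht
  constructor
  · intro hσ
    obtain ⟨h1, h2⟩ := same hd Y π σ hσ hfac.1
    refine ⟨⟨h1, fun o ho => ?_⟩, ?_⟩
    · unfold kp
      rw [h2]
      refine hfac.2 o (not_lt.1 fun h => ?_)
      exact absurd ((symm_mul_val π σ hσ o).2 h) (not_lt.2 ho)
    · refine ⟨fun a => emb d π t ((π * σ) (Fin.castLE hd a)), fun a => ?_, ?_⟩
      · refine emb_pos π t ht0 _ ?_
        rw [← symm_mul_val π σ hσ, Equiv.symm_apply_apply]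
        exact a.2
      · show lin Y (pr (emb d (π * σ) fun a => emb d π t ((π * σ) (Fin.castLE hd a)))) = _
        rw [emb_of hd (π * σ) (emb d π t) fun o ho => emb_zero _ _ _ fun h =>
          ho ((symm_mul_val π σ hσ o).2 h)]
  · rintro ⟨hfac', t', ht', hz⟩
    have ht0' : ∀ a, 0 < t' a := ht'
    have hz1 : lin Y (pr (emb d (π * σ) t')) = lin Y (pr (emb d π t)) := hz
    have a1 := le_sums hd Y π (π * σ) hfac t t' ht0' hz1.symm
    have a2 := le_sums hd Y (π * σ) π hfac' t' t ht0 hz1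
    intro o
    have h1 : π.symm (π (σ o)) = σ o := Equiv.symm_apply_apply _ _
    have h2 : (π * σ).symm (π (σ o)) = o := (π * σ).symm_apply_apply o
    constructor
    · intro h
      have h3 := sub hd Y (π * σ) π hfac' t' t ht0 hz1 a1 (π (σ o)) (by rw [h1]; exact h)
      rw [h2] at h3
      exact h3
    · intro h
      have h3 := sub hd Y π (π * σ) hfac t t' ht0' hz1.symm a2 (π (σ o)) (by rw [h2]; exact h)
      rw [h1] at h3
      exact h3

end Pool.Agent.Helper39.LQ
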